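import Mathlib
import Pool.Agent.W205.K5.Stm0

set_option autoImplicit false

namespace Pool.Agent.W681.K5

open Pool.Agent.W205.K5

theorem rho_loc {ρ : ℝ} (h0 : 0 < ρ) (h1 : ρ < 1) (h : ρ ^ 5 + (1 - ρ / 5) ^ 5 = 1) :
    913235 / 1000000 < ρ ∧ ρ < 913236 / 1000000 := by
  have hh : 3124 / 3125 * ρ ^ 4 + ρ ^ 3 / 125 - 2 * ρ ^ 2 / 25 + 2 * ρ / 5 - 1 = 0 := by
    have e : ρ * (3124 / 3125 * ρ ^ 4 + ρ ^ 3 / 125 - 2 * ρ ^ 2 / 25 + 2 * ρ / 5 - 1) = 0 := by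
      linear_combination h
    rcases mul_eq_zero.mp e with e | e
    · exact absurd e h0.ne'
    · exact e
  have key : ∀ a : ℝ, 0 < a → a < 1 →
      3124 / 3125 * a ^ 4 + a ^ 3 / 125 - 2 * a ^ 2 / 25 + 2 * a / 5 - 1
      = (a - ρ) * (3124 / 3125 * (a ^ 3 + a ^ 2 * ρ + a * ρ ^ 2 + ρ ^ 3)
        + (a ^ 2 + a * ρ + ρ ^ 2) / 125 - 2 * (a + ρ) / 25 + 2 / 5) ∧
      0 < 3124 / 3125 * (a ^ 3 + a ^ 2 * ρ + a * ρ ^ 2 + ρ ^ 3)
        + (a ^ 2 + a * ρ + ρ ^ 2) / 125 - 2 * (a + ρ) / 25 + 2 / 5 := by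
    intro a ha ha1
    refine ⟨by linear_combination hh, ?_⟩
    have e1 : 0 < a ^ 3 + a ^ 2 * ρ + a * ρ ^ 2 + ρ ^ 3 := by positivity
    have e2 : 0 < a ^ 2 + a * ρ + ρ ^ 2 := by positivity
    linarith
  constructor
  · obtain ⟨k1, k2⟩ := key (913235 / 1000000) (by norm_num) (by norm_num)
    by_contra hc
    push Not at hc
    have : 0 ≤ ((913235 : ℝ) / 1000000 - ρ) * (3124 / 3125 * (((913235 : ℝ) / 1000000) ^ 3 + ((913235 : ℝ) / 1000000) ^ 2 * ρ + ((913235 : ℝ) / 1000000) * ρ ^ 2 + ρ ^ 3)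
        + (((913235 : ℝ) / 1000000) ^ 2 + ((913235 : ℝ) / 1000000) * ρ + ρ ^ 2) / 125 - 2 * (((913235 : ℝ) / 1000000) + ρ) / 25 + 2 / 5) :=
      mul_nonneg (by linarith) k2.le
    rw [← k1] at this
    norm_num at this
  · obtain ⟨k1, k2⟩ := key (913236 / 1000000) (by norm_num) (by norm_num)
    by_contra hc
    push Not at hc
    have : ((913236 : ℝ) / 1000000 - ρ) * (3124 / 3125 * (((913236 : ℝ) / 1000000) ^ 3 + ((913236 : ℝ) / 1000000) ^ 2 * ρ + ((913236 : ℝ) / 1000000) * ρ ^ 2 + ρ ^ 3)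
        + (((913236 : ℝ) / 1000000) ^ 2 + ((913236 : ℝ) / 1000000) * ρ + ρ ^ 2) / 125 - 2 * (((913236 : ℝ) / 1000000) + ρ) / 25 + 2 / 5) ≤ 0 :=
      mul_nonpos_of_nonpos_of_nonneg (by linarith) k2.le
    rw [← k1] at this
    norm_num at this

theorem piece54 (hL : S_LINE) (hC : S_CHORD) : PIECE 5 4 := by
  intro w g hs hg1 hg2 ρ h0 h1 hρ
  have hρ' : ρ ^ 5 + (1 - ρ / 5) ^ 5 = 1 := by
    have := hρ
    push_cast at this
    exact this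
  obtain ⟨ha, hb⟩ := rho_loc h0 h1 hρ'
  have hK4 : KK 4 = 81 / 64 := by rw [KK]; norm_num
  have hK5 : KK (4 + 1) = 1024 / 625 := by rw [KK]; norm_num
  have hch := hC 5 w g le_rfl hs 4 (by norm_num) (by norm_num) hg1 hg2
  rw [hK4, hK5] at hch
  rw [hK4] at hg1
  rw [hK5] at hg2
  -- lines
  have l3 := hL 5 w g hs 3 (11 / 20) (12 / 5) (by norm_num) (by norm_num) (by norm_num) (by norm_num)
    (by
      intro n hn1 hn2
      interval_cases n <;> norm_num)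
  have l2 := hL 5 w g hs 2 (101 / 620) (144 / 155) (by norm_num) (by norm_num) (by norm_num) (by norm_num)
    (by
      intro n hn1 hn2
      interval_cases n <;> norm_num)
  have l1 := hL 5 w g hs 1 (491 / 14420) (1728 / 3605) (by norm_num) (by norm_num) (by norm_num) (by norm_num)
    (by
      intro n hn1 hn2
      interval_cases n <;> norm_num)
  have a0 := hs.add 0 (by norm_num)
  have a1 := hs.add 1 (by norm_num)
  have a2 := hs.add 2 (by norm_num)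
  have a3 := hs.add 3 (by norm_num)
  have j4 := hs.jen 4 (by norm_num)
  have w5 := hs.wk
  norm_num at a0 a1 a2 a3 j4
  -- coefficients
  have hTh : Th 5 ρ (fun j => w (5 - j)) = ρ ^ 5 * w 0 + 5 * ρ ^ 4 * (1 - ρ) * w 1
      + 10 * ρ ^ 3 * (1 - ρ) ^ 2 * w 2 + 10 * ρ ^ 2 * (1 - ρ) ^ 3 * w 3 + 5 * ρ * (1 - ρ) ^ 4 * w 4
      + (1 - ρ) ^ 5 * w 5 := by
    rw [Th]
    simp only [Finset.sum_range_succ, Finset.sum_range_zero]
    norm_num [Nat.choose]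
    ring
  rw [hTh, w5]
  have hq0 : 0 < 1 - ρ := by linarith
  set q : ℝ := 1 - ρ with hq
  have hqb : q < 86765 / 1000000 := by rw [hq]; linarith
  obtain ⟨c0, hc0⟩ : ∃ c, c = ρ ^ 5 := ⟨_, rfl⟩
  obtain ⟨c1, hc1⟩ : ∃ c, c = 5 * ρ ^ 4 * q := ⟨_, rfl⟩
  obtain ⟨c2, hc2⟩ : ∃ c, c = 10 * ρ ^ 3 * q ^ 2 := ⟨_, rfl⟩
  obtain ⟨c3, hc3⟩ : ∃ c, c = 10 * ρ ^ 2 * q ^ 3 := ⟨_, rfl⟩
  obtain ⟨c4, hc4⟩ : ∃ c, c = 5 * ρ * q ^ 4 := ⟨_, rfl⟩
  obtain ⟨c5, hc5⟩ : ∃ c, c = q ^ 5 := ⟨_, rfl⟩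
  have hsum : c0 + c1 + c2 + c3 + c4 + c5 = 1 := by
    rw [hc0, hc1, hc2, hc3, hc4, hc5, hq]; ring
  have hrel : c0 * (1024 / 3125) + c1 * (256 / 625) + c2 * (64 / 125) + c3 * (16 / 25) + c4 * (4 / 5) + c5
      = 1 - c0 := by
    rw [hc0, hc1, hc2, hc3, hc4, hc5, hq]
    linear_combination hρ'
  have hb0 : (913235 / 1000000 : ℝ) ^ 5 ≤ c0 := by
    rw [hc0]; exact pow_le_pow_left₀ (by norm_num) ha.le 5
  have hb1 : c1 ≤ 5 * (913236 / 1000000 : ℝ) ^ 4 * (86765 / 1000000) := by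
    rw [hc1]
    exact mul_le_mul (mul_le_mul_of_nonneg_left (pow_le_pow_left₀ h0.le hb.le 4) (by norm_num)) hqb.le
      hq0.le (by norm_num)
  have hb2 : c2 ≤ 10 * (913236 / 1000000 : ℝ) ^ 3 * (86765 / 1000000) ^ 2 := by
    rw [hc2]
    exact mul_le_mul (mul_le_mul_of_nonneg_left (pow_le_pow_left₀ h0.le hb.le 3) (by norm_num))
      (pow_le_pow_left₀ hq0.le hqb.le 2) (by positivity) (by norm_num)
  have hb3 : c3 ≤ 10 * (913236 / 1000000 : ℝ) ^ 2 * (86765 / 1000000) ^ 3 := by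
    rw [hc3]
    exact mul_le_mul (mul_le_mul_of_nonneg_left (pow_le_pow_left₀ h0.le hb.le 2) (by norm_num))
      (pow_le_pow_left₀ hq0.le hqb.le 3) (by positivity) (by norm_num)
  have hp4 : 0 ≤ c4 := by rw [hc4]; positivity
  have h43 : c4 ≤ c3 := by
    rw [hc4, hc3]
    have e : 10 * ρ ^ 2 * q ^ 3 - 5 * ρ * q ^ 4 = 5 * ρ * q ^ 3 * (2 * ρ - q) := by ring
    have : 0 ≤ 5 * ρ * q ^ 3 * (2 * ρ - q) := mul_nonneg (by positivity) (by linarith)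
    linarith
  have h32 : c3 ≤ c2 := by
    rw [hc3, hc2]
    have e : 10 * ρ ^ 3 * q ^ 2 - 10 * ρ ^ 2 * q ^ 3 = 10 * ρ ^ 2 * q ^ 2 * (ρ - q) := by ring
    have : 0 ≤ 10 * ρ ^ 2 * q ^ 2 * (ρ - q) := mul_nonneg (by positivity) (by linarith)
    linarith
  have h21 : c2 ≤ c1 := by
    rw [hc2, hc1]
    have e : 5 * ρ ^ 4 * q - 10 * ρ ^ 3 * q ^ 2 = 5 * ρ ^ 3 * q * (ρ - 2 * q) := by ring
    have : 0 ≤ 5 * ρ ^ 3 * q * (ρ - 2 * q) := mul_nonneg (by positivity) (by linarith)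
    linarith
  have hp0 : 0 ≤ c0 := by rw [hc0]; positivity
  rw [← hc0, ← hc1, ← hc2, ← hc3, ← hc4, ← hc5, mul_one]
  clear hTh hρ hρ' hc0 hc1 hc2 hc3 hc4 hc5
  -- backwards bound
  obtain ⟨S3, hS3⟩ : ∃ S, S = c4 + (c3 - c4) * (11 / 31) := ⟨_, rfl⟩
  obtain ⟨S2, hS2⟩ : ∃ S, S = S3 + (c2 - S3) * (101 / 721) := ⟨_, rfl⟩
  have p1 : 0 ≤ c4 * (w 4 - (4 - g 3)) := mul_nonneg hp4 (by linarith)
  have p2 : 0 ≤ c4 * (g 2 + w 3 - g 3) := mul_nonneg hp4 (by linarith)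
  have p3 : 0 ≤ (c3 - c4) * (w 3 - (48 / 31 - 11 / 31 * g 2)) := mul_nonneg (by linarith) (by linarith)
  have p4 : 0 ≤ S3 * (g 1 + w 2 - g 2) := mul_nonneg (by linarith) (by linarith)
  have p5 : 0 ≤ (c2 - S3) * (w 2 - (576 / 721 - 101 / 721 * g 1)) :=
    mul_nonneg (by linarith) (by linarith)
  have p6 : 0 ≤ S2 * (g 0 + w 1 - g 1) := mul_nonneg (by linarith) (by linarith)
  have p7 : 0 ≤ (c1 - S2) * (w 1 - (6912 / 14911 - 491 / 14911 * g 0)) :=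
    mul_nonneg (by linarith) (by linarith)
  -- the value at the end points
  have hF4 : 0 ≤ c0 * (81 / 256) - c1 * (37 / 64) - c2 * (7 / 16) - c3 * (1 / 4) := by
    norm_num at hb0 hb1 hb2 hb3 ⊢
    linarith
  have p8 : 0 ≤ (c0 * (81 / 256) - c1 * (37 / 64) - c2 * (7 / 16) - c3 * (1 / 4)) * (1024 / 625 - g 0) :=
    mul_nonneg hF4 (by linarith)
  have p9 : 0 ≤ c0 * (w 0 * (1024 / 625 - 81 / 64) - ((1 - 1 / 4) ^ 4 * (1024 / 625 - g 0)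
      + (1 - 1 / (4 + 1)) ^ (4 + 1) * (g 0 - 81 / 64))) := by
    refine mul_nonneg hp0 ?_
    have := hch
    push_cast at this
    linarith
  subst hS2
  subst hS3
  have hfin : 0 ≤ (c0 * w 0 + c1 * w 1 + c2 * w 2 + c3 * w 3 + c4 * w 4 + c5 - (1 - c0)) *
      (1024 / 625 - 81 / 64) := by
    have e5 : c5 = 1 - c0 - (c0 * (1024 / 3125) + c1 * (256 / 625) + c2 * (64 / 125) + c3 * (16 / 25) + c4 * (4 / 5)) := by
      linarith
    have esum : (c0 + c1 + c2 + c3 + c4 + c5) * g 0 = g 0 := by rw [hsum, one_mul]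
    have erel : (c0 * (1024 / 3125) + c1 * (256 / 625) + c2 * (64 / 125) + c3 * (16 / 25) + c4 * (4 / 5) + c5) * g 0
      = (1 - c0) * g 0 := by rw [hrel]
    nlinarith [p1, p2, p3, p4, p5, p6, p7, p8, p9, hsum, hrel, esum, erel]
  have hpos : (0 : ℝ) < 1024 / 625 - 81 / 64 := by norm_num
  have := nonneg_of_mul_nonneg_left hfin hpos
  linarith

end Pool.Agent.W681.K5
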